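import Pool.Agent.P.MP_0bef39_lc.U.Tree

/-!
Every analytic set reduces to the orbit relation of the representation, which is therefore not
Borel.
-/

namespace Pool.Agent.P.MP_0bef39_lc.U

open Filter Topology MeasureTheory
open scoped ENNReal

theorem exists_analytic_not_borel :
    ∃ D : Set (ℕ → ℕ), AnalyticSet D ∧ ¬ @MeasurableSet _ (borel _) D := by
  obtain ⟨V, hV⟩ := TopologicalSpace.exists_seq_basis ((ℕ → ℕ) × (ℕ → ℕ))
  let F : Set ((ℕ → ℕ) × (ℕ → ℕ)) := {q | ∀ n, q.1 n = 0 → q ∉ V n}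
  have hF : IsClosed F := by
    have : F = ⋂ n, ({q | q.1 n = 0}ᶜ ∪ (V n)ᶜ) := by
      ext q
      simp only [F, Set.mem_ofPred_eq, Set.mem_iInter, Set.mem_union, Set.mem_compl_iff]
      refine forall_congr' fun n => ?_
      tauto
    rw [this]
    refine isClosed_iInter fun n => IsClosed.union ?_ (hV.isOpen ⟨n, rfl⟩).isClosed_compl
    have h1 : Continuous fun q : (ℕ → ℕ) × (ℕ → ℕ) => q.1 n := by fun_prop
    exact ((isOpen_discrete ({0} : Set ℕ)).preimage h1).isClosed_compl
  refine ⟨Prod.fst '' F, hF.analyticSet.image_of_continuous continuous_fst, fun hD => ?_⟩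
  borelize (ℕ → ℕ)
  have h1 := hD.compl.analyticSet
  obtain ⟨H, hH, hHD⟩ : ∃ H : Set ((ℕ → ℕ) × (ℕ → ℕ)), IsClosed H ∧
      Prod.fst '' H = (Prod.fst '' F)ᶜ := by
    rw [AnalyticSet] at h1
    rcases h1 with h1 | ⟨f, hf, h1⟩
    · exact ⟨∅, isClosed_empty, by rw [h1, Set.image_empty]⟩
    · refine ⟨{q | f q.2 = q.1}, isClosed_eq (hf.comp continuous_snd) continuous_fst, ?_⟩
      rw [← h1]
      ext z
      simp
  classical
  let c : ℕ → ℕ := fun n => if Disjoint (V n) H then 0 else 1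
  have key : ∀ γ, (c, γ) ∈ F ↔ (c, γ) ∈ H := by
    intro γ
    constructor
    · intro h
      by_contra hcon
      obtain ⟨_, ⟨n, rfl⟩, h2, h3⟩ := hV.exists_subset_of_mem_open hcon hH.isOpen_compl
      exact h n (by simpa [c] using Set.subset_compl_iff_disjoint_right.mp h3) h2
    · intro h n hn h2
      have h3 : Disjoint (V n) H := by simpa [c] using hn
      exact Set.disjoint_left.mp h3 h2 h
  have key2 : c ∈ Prod.fst '' F ↔ c ∈ Prod.fst '' H := by
    simp only [Set.mem_image, Prod.exists, exists_and_right, exists_eq_right, key]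
  rw [hHD] at key2
  exact iff_not_self key2

theorem mem_range_iff {Z : Type*} [MetricSpace Z] (f : (ℕ → ℕ) → Z) (hf : Continuous f) (z : Z) :
    z ∈ Set.range f ↔ ∃ b : ℕ → ℕ, ∀ n,
      z ∈ closure (f '' {γ | pre γ (pre b (n + 1)).length = pre b (n + 1)}) := by
  simp only [length_pre]
  constructor
  · rintro ⟨γ, rfl⟩
    exact ⟨γ, fun n => subset_closure ⟨γ, rfl, rfl⟩⟩
  · rintro ⟨b, hb⟩
    have h1 : ∀ n : ℕ, ∃ γ : ℕ → ℕ, (∀ i < n + 1, γ i = b i) ∧
        dist (f γ) z < 1 / ((n : ℝ) + 1) := by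
      intro n
      obtain ⟨_, ⟨γ, hγ, rfl⟩, hd⟩ :=
        Metric.mem_closure_iff.mp (hb n) (1 / ((n : ℝ) + 1)) (by positivity)
      exact ⟨γ, eq_of_pre_eq hγ, by rwa [dist_comm]⟩
    choose γ hγ hd using h1
    have h2 : Tendsto γ atTop (𝓝 b) := by
      rw [tendsto_pi_nhds]
      intro i
      refine tendsto_const_nhds.congr' ?_
      filter_upwards [eventually_ge_atTop i] with n hn
      exact (hγ n i (by omega)).symm
    have h3 : Tendsto (fun n => f (γ n)) atTop (𝓝 z) := by
      rw [tendsto_iff_dist_tendsto_zero]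
      exact squeeze_zero (fun _ => dist_nonneg) (fun n => (hd n).le)
        tendsto_one_div_add_atTop_nhds_zero_nat
    exact ⟨b, tendsto_nhds_unique ((hf.tendsto b).comp h2) h3⟩

variable {p : ℝ≥0∞} [Fact (1 ≤ p)]

theorem not_borel_rep (hp2 : p ≤ 2) :
    ¬ @MeasurableSet (HH × HH) (borel (HH × HH)) {q | ∃ x, (rep hp2).U x q.1 = q.2} := by
  classical
  intro h
  obtain ⟨D, hD, hnD⟩ := exists_analytic_not_borel
  apply hnD
  rw [AnalyticSet] at hD
  rcases hD with rfl | ⟨f, hf, rfl⟩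
  · exact @MeasurableSet.empty _ (borel _)
  let _ := TopologicalSpace.upgradeIsCompletelyMetrizable (ℕ → ℕ)
  let T : (ℕ → ℕ) → List ℕ → Bool := fun z s =>
    decide (z ∈ closure (f '' {γ | pre γ s.length = s}))
  have hT : @Measurable _ _ (borel _) (borel _) T := by
    rw [← BorelSpace.measurable_eq (α := List ℕ → Bool), ← BorelSpace.measurable_eq (α := ℕ → ℕ)]
    refine measurable_pi_lambda _ fun s => measurable_to_bool ?_
    have : (fun z => T z s) ⁻¹' {true} = closure (f '' {γ | pre γ s.length = s}) := by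
      ext z
      simp [T]
    rw [this]
    exact isClosed_closure.measurableSet
  have h1 := (continuous_pairT.borel_measurable.comp hT) h
  convert h1 using 1
  ext z
  rw [mem_range_iff f hf]
  simp only [Set.mem_preimage, Function.comp, Set.mem_ofPred_eq, pairT_mem_iff, T, decide_eq_true_eq]

end Pool.Agent.P.MP_0bef39_lc.U
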