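import Pool.Agent.P.MP_0bef39_lc.U.Signs

/-!
For `2 < p < ∞` the orbit relation of a unitary representation of `ℓ^p` is a countable union of
closed sets.
-/

namespace Pool.Agent.P.MP_0bef39_lc.U

open Finset Filter Topology
open scoped ENNReal

/-- The real sequence space. -/
abbrev L (p : ℝ≥0∞) : Type := lp (fun _ : ℕ => ℝ) p

variable {p : ℝ≥0∞} [Fact (1 ≤ p)]

theorem p_ne_zero : p ≠ 0 := (zero_lt_one.trans_le (Fact.out : 1 ≤ p)).ne'

/-- The first `M` coordinates. -/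
noncomputable def head (M : ℕ) (y : L p) : L p := ∑ i ∈ range M, lp.single p i (y i)

omit [Fact (1 ≤ p)] in
theorem head_apply (M : ℕ) (y : L p) (i : ℕ) : head M y i = if i < M then y i else 0 := by
  simp only [head, lp.coeFn_sum, Finset.sum_apply, lp.coeFn_single, Finset.sum_pi_single,
    mem_range]

theorem norm_head_le (M : ℕ) (y : L p) : ‖head M y‖ ≤ ‖y‖ :=
  lp.norm_mono p_ne_zero fun i => by
    rw [head_apply]
    split_ifs <;> simp

theorem norm_tail_le (M : ℕ) (y : L p) : ‖y - head M y‖ ≤ ‖y‖ :=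
  lp.norm_mono p_ne_zero fun i => by
    rw [lp.coeFn_sub, Pi.sub_apply, head_apply]
    split_ifs <;> simp

theorem tendsto_head (hp : p ≠ ∞) (y : L p) : Tendsto (fun M => head M y) atTop (𝓝 y) :=
  (lp.hasSum_single hp y).tendsto_sum_nat

theorem norm_add_rpow (hp : p ≠ ∞) (a b : L p) (h : ∀ i, a i = 0 ∨ b i = 0) :
    ‖a + b‖ ^ p.toReal = ‖a‖ ^ p.toReal + ‖b‖ ^ p.toReal := by
  have hq : 0 < p.toReal := ENNReal.toReal_pos p_ne_zero hp
  refine (lp.hasSum_norm hq (a + b)).unique ?_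
  convert (lp.hasSum_norm hq a).add (lp.hasSum_norm hq b) using 2 with i
  rcases h i with h | h <;> simp [h, Real.zero_rpow hq.ne']

variable {H : Type*} [NormedAddCommGroup H] [InnerProductSpace ℂ H]

theorem exists_blocks (hp : p ≠ ∞) (d : L p → ℝ) (hd : Continuous d) (δ R : ℝ)
    (h : ∀ M : ℕ, ∃ y : L p, ‖y‖ ≤ R ∧ (∀ i < M, y i = 0) ∧ δ < d y) :
    ∃ (M : ℕ → ℕ) (y : ℕ → L p), Monotone M ∧ ∀ k, ‖y k‖ ≤ R ∧ (∀ i < M k, y k i = 0) ∧
      (∀ i, M (k + 1) ≤ i → y k i = 0) ∧ δ < d (y k) := by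
  have h1 : ∀ M : ℕ, ∃ (M' : ℕ) (y : L p), M ≤ M' ∧ ‖y‖ ≤ R ∧ (∀ i < M, y i = 0) ∧
      (∀ i, M' ≤ i → y i = 0) ∧ δ < d y := by
    intro M
    obtain ⟨y, hy1, hy2, hy3⟩ := h M
    have h2 := ((hd.tendsto y).comp (tendsto_head hp y)).eventually (lt_mem_nhds hy3)
    obtain ⟨M', hM1, hM2⟩ := (h2.and (eventually_ge_atTop M)).exists
    refine ⟨M', head M' y, hM2, (norm_head_le _ _).trans hy1, fun i hi => ?_, fun i hi => ?_, hM1⟩
    · rw [head_apply, hy2 i hi, ite_self]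
    · rw [head_apply, if_neg (not_lt.mpr hi)]
  choose nx y h2 using h1
  let M : ℕ → ℕ := fun k => nx^[k] 0
  have hM : ∀ k, M (k + 1) = nx (M k) := fun k => Function.iterate_succ_apply' _ _ _
  refine ⟨M, fun k => y (M k), monotone_nat_of_le_succ fun k => hM k ▸ (h2 (M k)).1, fun k => ?_⟩
  rw [hM]
  exact (h2 (M k)).2

theorem tail_small (hp : p ≠ ∞) (hp2 : 2 < p) (π : Rep (L p) H) (ξ : H)
    (hc : Continuous fun x => π.U x ξ) (δ : ℝ) (hδ : 0 < δ) (R : ℝ) :
    ∃ M : ℕ, ∀ y : L p, ‖y‖ ≤ R → (∀ i < M, y i = 0) → ‖π.U y ξ - ξ‖ ≤ δ := by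
  by_contra hcon
  push Not at hcon
  have hd : Continuous fun x => ‖π.U x ξ - ξ‖ := by fun_prop
  obtain ⟨M, y, hM, hy⟩ := exists_blocks hp _ hd δ R hcon
  have hR : 0 ≤ R := (norm_nonneg _).trans (hy 0).1
  set q := p.toReal with hqdef
  have hq2 : 2 < q := by
    have := (ENNReal.toReal_lt_toReal (by simp) hp).mpr hp2
    simpa using this
  have hq : 0 < q := by linarith
  obtain ⟨η, hη, hη2⟩ : ∃ η > 0, ∀ x : L p, ‖x‖ < η → ‖π.U x ξ - ξ‖ ≤ δ / 4 := by
    have h0 : ‖π.U 0 ξ - ξ‖ < δ / 4 := by rw [π.zero]; simp; positivity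
    obtain ⟨η, hη, h⟩ := Metric.eventually_nhds_iff.mp ((hd.tendsto 0).eventually (gt_mem_nhds h0))
    exact ⟨η, hη, fun x hx => (h (by simpa using hx)).le⟩
  obtain ⟨K, hK⟩ := exists_nat_gt (16 * ‖ξ‖ ^ 2 / δ ^ 2)
  have hK2 : 16 * ‖ξ‖ ^ 2 < K * δ ^ 2 := by rwa [div_lt_iff₀ (by positivity)] at hK
  obtain ⟨m, hm1, hm2⟩ : ∃ m : ℕ, 1 ≤ m ∧ K * (R / 2) ^ q / η ^ q < (m : ℝ) ^ (q - 2) := by
    have h1 : Tendsto (fun m : ℕ => (m : ℝ) ^ (q - 2)) atTop atTop :=
      (tendsto_rpow_atTop (by linarith)).comp tendsto_natCast_atTop_atTop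
    exact ((eventually_ge_atTop 1).and (h1.eventually (eventually_gt_atTop _))).exists
  have hm0 : (0 : ℝ) < m := by exact_mod_cast hm1
  let u : ℕ → L p := fun k => (1 / (2 * m) : ℝ) • y k
  have hu : ∀ k, m • (u k + u k) = y k := by
    intro k
    simp only [u]
    rw [← add_smul, ← Nat.cast_smul_eq_nsmul ℝ, smul_smul]
    have : (m : ℝ) * (1 / (2 * m) + 1 / (2 * m)) = 1 := by field_simp; ring
    rw [this, one_smul]
  have hsum : ∀ σ : ℕ → ℤ, (∀ i, σ i = 1 ∨ σ i = -1) → ∀ n,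
      (∀ i, M n ≤ i → (∑ k ∈ range n, σ k • u k : L p) i = 0) ∧
        ‖∑ k ∈ range n, σ k • u k‖ ^ q ≤ n * (R / (2 * m)) ^ q := by
    intro σ hσ n
    induction n with
    | zero => simp [Real.zero_rpow hq.ne']
    | succ n ih =>
      have hz : ∀ i, y n i = 0 → (σ n • u n : L p) i = 0 := by
        intro i hi
        rcases hσ n with h | h <;> simp [h, u, hi]
      rw [sum_range_succ]
      constructor
      · intro i hi
        rw [lp.coeFn_add, Pi.add_apply, ih.1 i ((hM n.le_succ).trans hi), hz i ((hy n).2.2.1 i hi),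
          add_zero]
      · rw [norm_add_rpow hp _ _ (fun i => ?_)]
        · have h1 : ‖σ n • u n‖ ≤ R / (2 * m) := by
            have h2 : ‖σ n • u n‖ = ‖u n‖ := by rcases hσ n with h | h <;> simp [h]
            rw [h2, norm_smul, Real.norm_of_nonneg (by positivity)]
            have := (hy n).1
            rw [div_mul_eq_mul_div, one_mul]
            gcongr
          have h2 : ‖σ n • u n‖ ^ q ≤ (R / (2 * m)) ^ q := by gcongr
          push_cast
          linarith [ih.2]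
        · rcases lt_or_ge i (M n) with h | h
          · exact Or.inr (hz i ((hy n).2.1 i h))
          · exact Or.inl (ih.1 i h)
  have h3 := π.few u ξ δ hδ.le (K * m ^ 2) m (fun k => by rw [hu]; exact (hy k).2.2.2.le)
    (fun σ hσ => hη2 _ ?_)
  · push_cast at h3
    nlinarith [pow_pos hm0 2]
  · rw [← Real.rpow_lt_rpow_iff (norm_nonneg _) hη.le hq]
    refine (hsum σ hσ _).2.trans_lt ?_
    rw [div_lt_iff₀ (by positivity)] at hm2
    have h4 : (R / (2 * m)) ^ q = (R / 2) ^ q / (m : ℝ) ^ q := by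
      rw [← Real.div_rpow (by positivity) hm0.le, div_div]
    have h5 : (m : ℝ) ^ q = (m : ℝ) ^ (q - 2) * m ^ 2 := by
      rw [← Real.rpow_natCast, ← Real.rpow_add hm0]
      norm_num
    rw [h4, h5]
    push_cast
    have h6 : 0 < (m : ℝ) ^ (q - 2) := by positivity
    rw [← mul_div_assoc, div_lt_iff₀ (by positivity)]
    nlinarith [pow_pos hm0 2]

theorem tendsto_of_pointwise (hp : p ≠ ∞) (hp2 : 2 < p) (π : Rep (L p) H) (ξ : H)
    (hc : Continuous fun x => π.U x ξ) (R : ℝ) (y : ℕ → L p) (hy : ∀ n, ‖y n‖ ≤ R)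
    (h0 : ∀ i, Tendsto (fun n => y n i) atTop (𝓝 0)) :
    Tendsto (fun n => ‖π.U (y n) ξ - ξ‖) atTop (𝓝 0) := by
  rw [Metric.tendsto_nhds]
  intro ε hε
  obtain ⟨M, hM⟩ := tail_small hp hp2 π ξ hc (ε / 2) (by positivity) R
  have h1 : Tendsto (fun n => head M (y n)) atTop (𝓝 0) := by
    have h2 := tendsto_finsetSum (range M) fun i _ =>
      ((lp.isometry_single (E := fun _ : ℕ => ℝ) (p := p) i).continuous.tendsto 0).comp (h0 i)
    simpa [head] using h2
  have hd : Continuous fun x => ‖π.U x ξ - ξ‖ := by fun_prop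
  have h3 : ‖π.U 0 ξ - ξ‖ < ε / 2 := by rw [π.zero]; simp; positivity
  filter_upwards [((hd.tendsto 0).comp h1).eventually (gt_mem_nhds h3)] with n hn
  have h4 := π.disp_add (head M (y n)) (y n - head M (y n)) ξ
  rw [add_sub_cancel] at h4
  have h5 := hM (y n - head M (y n)) ((norm_tail_le _ _).trans (hy n)) fun i hi => by
    rw [lp.coeFn_sub, Pi.sub_apply, head_apply, if_pos hi, sub_self]
  rw [dist_zero_right, norm_norm]
  simp only [Function.comp] at hn
  linarith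

theorem isClosed_orbit (hp : p ≠ ∞) (hp2 : 2 < p) (π : Rep (L p) H)
    (hc : ∀ ξ, Continuous fun x => π.U x ξ) (R : ℝ) :
    IsClosed {q : H × H | ∃ x, ‖x‖ ≤ R ∧ π.U x q.1 = q.2} := by
  refine IsSeqClosed.isClosed fun q q₀ hq hlim => ?_
  choose x hx1 hx2 using hq
  have hK : IsCompact (Set.pi Set.univ fun _ : ℕ => Metric.closedBall (0 : ℝ) R) :=
    isCompact_univ_pi fun _ => isCompact_closedBall _ _
  obtain ⟨f, -, φ, hφ, hf⟩ := hK.tendsto_subseq (x := fun n i => x n i) fun n i _ => by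
    simpa using (lp.norm_apply_le_norm p_ne_zero (x n) i).trans (hx1 n)
  have hmem : Memℓp f p := by
    refine lp.memℓp_of_tendsto (F := fun n => x (φ n)) (l := atTop) ?_ hf
    refine (Metric.isBounded_closedBall (x := 0) (r := R)).subset ?_
    rintro _ ⟨n, rfl⟩
    simpa using hx1 _
  let x₀ : L p := ⟨f, hmem⟩
  have hx₀ : ‖x₀‖ ≤ R :=
    lp.norm_le_of_tendsto (F := fun n => x (φ n)) (l := atTop)
      (Eventually.of_forall fun n => hx1 _) hf
  refine ⟨x₀, hx₀, ?_⟩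
  have h1 := tendsto_of_pointwise hp hp2 π q₀.1 (hc _) (R + R) (fun n => x (φ n) - x₀)
    (fun n => (norm_sub_le _ _).trans (add_le_add (hx1 _) hx₀)) (fun i => by
      have := (tendsto_pi_nhds.mp hf i).sub_const (f i)
      simpa [x₀] using this)
  simp only [← π.disp_sub] at h1
  have h2 : Tendsto (fun n => π.U (x (φ n)) q₀.1) atTop (𝓝 (π.U x₀ q₀.1)) :=
    tendsto_iff_norm_sub_tendsto_zero.mpr h1
  have h3 := hlim.comp hφ.tendsto_atTop
  have h4 : Tendsto (fun n => π.U (x (φ n)) (q₀.1 - (q (φ n)).1)) atTop (𝓝 0) := by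
    rw [tendsto_zero_iff_norm_tendsto_zero]
    simp only [LinearIsometryEquiv.norm_map]
    have := ((continuous_fst.tendsto _).comp h3).const_sub q₀.1
    simpa using this.norm
  have h5 := h4.add ((continuous_snd.tendsto _).comp h3)
  simp only [Function.comp, ← hx2, map_sub, sub_add_cancel, zero_add] at h5
  exact tendsto_nhds_unique h2 h5

theorem borel_orbit (hp : p ≠ ∞) (hp2 : 2 < p) (π : Rep (L p) H)
    (hc : ∀ ξ, Continuous fun x => π.U x ξ) :
    @MeasurableSet (H × H) (borel (H × H)) {q | ∃ x, π.U x q.1 = q.2} := by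
  have h : {q : H × H | ∃ x, π.U x q.1 = q.2} =
      ⋃ R : ℕ, {q : H × H | ∃ x, ‖x‖ ≤ R ∧ π.U x q.1 = q.2} := by
    ext q
    simp only [Set.mem_ofPred_eq, Set.mem_iUnion]
    constructor
    · rintro ⟨x, hx⟩
      obtain ⟨R, hR⟩ := exists_nat_ge ‖x‖
      exact ⟨R, x, hR, hx⟩
    · rintro ⟨_, x, -, hx⟩
      exact ⟨x, hx⟩
  rw [h]
  borelize (H × H)
  exact MeasurableSet.iUnion fun R => (isClosed_orbit hp hp2 π hc R).measurableSet

end Pool.Agent.P.MP_0bef39_lc.U
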