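import Pool.Agent.P.MP_0bef39_lc.U.Rad
import Pool.Agent.P.MP_0bef39_lc.U.Pos

/-!
For `1 ≤ p ≤ 2` a unitary representation of `ℓ^p` whose orbit relation codes ill-founded trees.
-/

namespace Pool.Agent.P.MP_0bef39_lc.U

open Finset Filter Topology MeasureTheory
open scoped ENNReal

/-- The enumeration of finite sequences. -/
abbrev en : List ℕ ≃ ℕ := Denumerable.eqv (List ℕ)

/-- The constraints: integrality, parity of a node, parity of a node and its children. -/
abbrev J : Type := List ℕ × Fin 3

/-- The coefficient of a node in a constraint. -/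
def co (j : J) (t : List ℕ) : ℤ :=
  if j.2 = 0 then (if t = j.1 then 2 else 0)
  else if j.2 = 1 then (if t = j.1 then 1 else 0)
  else if t = j.1 ∨ (t ≠ [] ∧ t.tail = j.1) then 1 else 0

theorem co_bound (j : J) (t : List ℕ) :
    |(co j t : ℝ) * 2 ^ t.length| ≤ 2 * 2 ^ (j.1.length + 1) := by
  have h : co j t = 0 ∨ ((co j t = 1 ∨ co j t = 2) ∧ t.length ≤ j.1.length + 1) := by
    unfold co
    split_ifs with h1 h2 h3 h4 h5
    · right; simp [h2]
    · simp
    · right; simp [h4]
    · simp
    · right
      rcases h5 with h5 | ⟨-, h5⟩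
      · simp [h5]
      · rw [← h5, List.length_tail]
        exact ⟨Or.inl rfl, by omega⟩
    · simp
  rcases h with h | ⟨h, hl⟩
  · simp only [h, Int.cast_zero, zero_mul, abs_zero]
    positivity
  · have h2 : (2 : ℝ) ^ t.length ≤ 2 ^ (j.1.length + 1) := pow_le_pow_right₀ one_le_two hl
    have h3 : (0 : ℝ) < 2 ^ t.length := by positivity
    rcases h with h | h <;> rw [h, abs_of_nonneg (by positivity)] <;> push_cast <;> linarith

variable {p : ℝ≥0∞} [Fact (1 ≤ p)]

omit [Fact (1 ≤ p)] in
theorem memℓp_diag (hp2 : p ≤ 2) (j : J) (x : L p) :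
    Memℓp (fun t : List ℕ => Real.pi * (co j t * 2 ^ t.length) * x (en t)) 2 := by
  have h1 : Memℓp (fun t : List ℕ => x (en t)) 2 := by
    have h2 := ((lp.memℓp x).of_exponent_ge hp2).summable (by simp)
    exact memℓp_gen ((en.summable_iff (f := fun i => ‖x i‖ ^ (2 : ℝ≥0∞).toReal)).mpr h2)
  refine (h1.const_mul (Real.pi * (2 * 2 ^ (j.1.length + 1)))).mono' fun t => ?_
  have h3 := co_bound j t
  simp only [norm_mul, Real.norm_eq_abs] at h3 ⊢
  rw [← abs_mul (co j t : ℝ), ← abs_mul 2, abs_of_nonneg (a := 2 * 2 ^ _) (by positivity)]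
  gcongr

/-- The coefficients of the Rademacher sum of a constraint. -/
noncomputable def diag (hp2 : p ≤ 2) (j : J) : L p →ₗ[ℝ] lp (fun _ : List ℕ => ℝ) 2 where
  toFun x := ⟨fun t => Real.pi * (co j t * 2 ^ t.length) * x (en t), memℓp_diag hp2 j x⟩
  map_add' x y := by
    ext t
    simp [mul_add]
  map_smul' c x := by
    ext t
    simp only [lp.coeFn_smul, Pi.smul_apply, smul_eq_mul, RingHom.id_apply]
    ring

omit [Fact (1 ≤ p)] in
theorem diag_apply (hp2 : p ≤ 2) (j : J) (x : L p) (t : List ℕ) :
    diag hp2 j x t = Real.pi * (co j t * 2 ^ t.length) * x (en t) := rfl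

theorem continuous_diag (hp2 : p ≤ 2) (j : J) : Continuous (diag hp2 j) := by
  refine LinearMap.continuous_of_seq_closed_graph _ fun u x y hu hy => ?_
  ext t
  have h1 := ((lp.lipschitzWith_one_eval 2 t).continuous.tendsto y).comp hy
  have h2 := (((lp.lipschitzWith_one_eval p (en t)).continuous.tendsto x).comp hu).const_mul
    (Real.pi * (co j t * 2 ^ t.length))
  exact tendsto_nhds_unique h1 h2

/-- The Hilbert space of the representation. -/
abbrev HH : Type := lp (fun _ : J => K) 2

instance : TopologicalSpace.SeparableSpace HH := by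
  classical
  have : Fact ((2 : ℝ≥0∞) ≠ ∞) := ⟨by simp⟩
  have : SecondCountableTopology K := Lp.SecondCountableTopology
  rw [← TopologicalSpace.isSeparable_univ_iff]
  have h1 : TopologicalSpace.IsSeparable
      (⋃ j : J, Set.range (lp.single (E := fun _ : J => K) 2 j)) :=
    TopologicalSpace.IsSeparable.iUnion fun j =>
      TopologicalSpace.isSeparable_range (lp.isometry_single j).continuous
  refine (h1.span (R := ℂ)).closure.mono fun v _ => ?_
  refine mem_closure_of_tendsto (lp.hasSum_single (by simp) v) (Eventually.of_forall fun s => ?_)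
  exact Submodule.sum_mem _ fun j _ => Submodule.subset_span (Set.mem_iUnion.mpr ⟨j, _, rfl⟩)

/-- The coordinatewise map of a family of unitaries. -/
noncomputable def sumF (V : J → K ≃ₗᵢ[ℂ] K) (v : HH) : HH :=
  ⟨fun j => V j (v j), (lp.memℓp v).mono' fun j => ((V j).norm_map _).le⟩

theorem sumF_apply (V : J → K ≃ₗᵢ[ℂ] K) (v : HH) (j : J) : sumF V v j = V j (v j) := rfl

/-- The direct sum of a family of unitaries. -/
noncomputable def sumU (V : J → K ≃ₗᵢ[ℂ] K) : HH ≃ₗᵢ[ℂ] HH where
  toFun := sumF V
  invFun := sumF fun j => (V j).symm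
  map_add' v w := by
    ext1
    funext j
    simp [sumF_apply]
  map_smul' c v := by
    ext1
    funext j
    simp [sumF_apply]
  left_inv v := by
    ext1
    funext j
    simp [sumF_apply]
  right_inv v := by
    ext1
    funext j
    simp [sumF_apply]
  norm_map' v := le_antisymm (lp.norm_mono (by simp) fun j => ((V j).norm_map _).le)
    (lp.norm_mono (by simp) fun j => ((V j).norm_map _).ge)

theorem sumU_apply (V : J → K ≃ₗᵢ[ℂ] K) (v : HH) (j : J) : sumU V v j = V j (v j) := rfl

/-- The representation. -/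
noncomputable def rep (hp2 : p ≤ 2) : Rep (L p) HH where
  U x := sumU fun j => mulU (W (diag hp2 j x))
  add x y v := by
    ext1
    funext j
    simp only [sumU_apply, map_add, mulU_apply, mulEx_add_left]

theorem continuous_rep (hp2 : p ≤ 2) (v : HH) : Continuous fun x => (rep hp2).U x v := by
  classical
  refine (isClosed_continuous (rep hp2).U).mem_of_tendsto (lp.hasSum_single (by simp) v)
    (Eventually.of_forall fun s => ?_)
  simp only [Set.mem_ofPred_eq, map_sum]
  refine continuous_finsetSum _ fun j _ => ?_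
  have h : ∀ x, (rep hp2).U x (lp.single 2 j (v j)) =
      lp.single 2 j (mulU (W (diag hp2 j x)) (v j)) := by
    intro x
    ext1
    funext i
    by_cases hi : i = j
    · subst hi
      simp [rep, sumU_apply]
    · simp [rep, sumU_apply, Pi.single_eq_of_ne hi]
  simp only [h]
  exact (lp.isometry_single j).continuous.comp
    ((continuous_mulU _).comp (W.continuous.comp (continuous_diag hp2 j)))

/-- Summable positive weights. -/
noncomputable def wt (j : J) : ℝ := (1 / 2) ^ Encodable.encode j

theorem wt_pos (j : J) : 0 < wt j := by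
  unfold wt
  positivity

theorem summable_wt : Summable wt :=
  summable_geometric_two.comp_injective Encodable.encode_injective

theorem norm_coord (a : ℝ) (ha : |a| ≤ 1) (j : J) :
    ‖((a * wt j : ℝ) : ℂ) • oneK‖ ≤ wt j * ‖oneK‖ := by
  rw [norm_smul, Complex.norm_real, Real.norm_eq_abs, abs_mul, abs_of_pos (wt_pos j)]
  gcongr
  exact mul_le_of_le_one_left (wt_pos j).le ha

/-- The vector attached to a tree and a choice of coefficients. -/
noncomputable def vec (a : J → Bool → ℝ) (ha : ∀ j b, |a j b| ≤ 1) (T : List ℕ → Bool) : HH :=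
  ⟨fun j => ((a j (T j.1) * wt j : ℝ) : ℂ) • oneK, by
    have h1 : Memℓp (fun j => wt j * ‖oneK‖) 1 := by
      refine memℓp_gen ?_
      simpa [abs_of_pos (wt_pos _)] using summable_wt.mul_right ‖oneK‖
    exact (h1.of_exponent_ge one_le_two).mono fun j => norm_coord _ (ha _ _) j⟩

theorem vec_apply (a : J → Bool → ℝ) (ha : ∀ j b, |a j b| ≤ 1) (T : List ℕ → Bool) (j : J) :
    vec a ha T j = ((a j (T j.1) * wt j : ℝ) : ℂ) • oneK := rfl

theorem continuous_vec (a : J → Bool → ℝ) (ha : ∀ j b, |a j b| ≤ 1) : Continuous (vec a ha) := by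
  classical
  have h : vec a ha = fun T => ∑' j, lp.single 2 j (vec a ha T j) :=
    funext fun T => (lp.hasSum_single (by simp) _).tsum_eq.symm
  rw [h]
  refine continuous_tsum (fun j => ?_) (summable_wt.mul_right ‖oneK‖) fun j T => ?_
  · exact (lp.isometry_single j).continuous.comp
      ((continuous_of_discreteTopology (f := fun b => ((a j b * wt j : ℝ) : ℂ) • oneK)).comp
        (continuous_apply j.1))
  · rw [lp.norm_single (by simp), vec_apply]
    exact norm_coord _ (ha _ _) j

/-- The phase demanded by a constraint; zero if the constraint is switched off. -/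
noncomputable def ph (j : J) (b : Bool) : ℝ :=
  if j.2 = 1 then (if j.1 = [] then -1 else if b then 0 else 1) else 1

theorem ph_cases (j : J) (b : Bool) : ph j b = 0 ∨ ph j b = 1 ∨ ph j b = -1 := by
  unfold ph
  split_ifs <;> simp

theorem ph_le (j : J) (b : Bool) : |ph j b| ≤ 1 := by
  rcases ph_cases j b with h | h | h <;> simp [h]

/-- The pair of vectors attached to a tree. -/
noncomputable def pairT (T : List ℕ → Bool) : HH × HH :=
  (vec (fun j b => |ph j b|) (fun j b => by simpa using ph_le j b) T, vec ph ph_le T)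

theorem continuous_pairT : Continuous pairT :=
  (continuous_vec _ _).prodMk (continuous_vec _ _)

omit [Fact (1 ≤ p)] in
theorem rep_pairT (hp2 : p ≤ 2) (T : List ℕ → Bool) (x : L p) :
    (rep hp2).U x (pairT T).1 = (pairT T).2 ↔
      ∀ j, ph j (T j.1) ≠ 0 → ∀ᵐ ω ∂mu, ex (W (diag hp2 j x) ω) = ph j (T j.1) := by
  rw [lp.ext_iff, funext_iff]
  refine forall_congr' fun j => ?_
  simp only [rep, sumU_apply, pairT, vec_apply, map_smul, ← mulU_one_iff]
  have hw : ((wt j : ℝ) : ℂ) ≠ 0 := by exact_mod_cast (wt_pos j).ne'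
  rcases ph_cases j (T j.1) with h | h | h
  · simp [h]
  · simp only [h, abs_one, one_mul, ne_eq, one_ne_zero, not_false_eq_true, forall_const,
      Complex.ofReal_one, one_smul]
    rw [smul_right_inj hw]
  · simp only [h, abs_neg, abs_one, one_mul, ne_eq, neg_eq_zero, one_ne_zero, not_false_eq_true,
      forall_const, Complex.ofReal_neg, Complex.ofReal_one, neg_mul, neg_smul, one_smul]
    rw [← smul_neg, smul_right_inj hw]

end Pool.Agent.P.MP_0bef39_lc.U
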