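import Pool.Agent.P.MP_0bef39_lc.U.Signs

/-!
Rademacher sums on the Cantor group and the unitaries of multiplication by `exp (i f)`.
-/

namespace Pool.Agent.P.MP_0bef39_lc.U

open Finset Filter Topology MeasureTheory
open scoped ENNReal

/-- The Cantor group indexed by finite sequences. -/
abbrev Om : Type := List ℕ → ZMod 2

/-- Haar probability measure. -/
noncomputable def mu : Measure Om := Measure.addHaarMeasure ⊤

instance : mu.IsAddHaarMeasure := inferInstanceAs (Measure.addHaarMeasure ⊤).IsAddHaarMeasure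

instance : IsProbabilityMeasure mu :=
  ⟨by simpa [mu] using Measure.addHaarMeasure_self (K₀ := (⊤ : TopologicalSpace.PositiveCompacts Om))⟩

/-- The Rademacher functions. -/
noncomputable def rad (t : List ℕ) (ω : Om) : ℝ := if ω t = 0 then 1 else -1

theorem rad_cases (t : List ℕ) (ω : Om) : rad t ω = 1 ∨ rad t ω = -1 := by
  unfold rad
  split_ifs <;> simp

theorem measurable_rad (t : List ℕ) : Measurable (rad t) :=
  (measurable_of_countable fun a : ZMod 2 => if a = 0 then (1 : ℝ) else -1).comp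
    (measurable_pi_apply t)

theorem memLp_rad (t : List ℕ) : MemLp (rad t) 2 mu :=
  MemLp.of_bound (measurable_rad t).aestronglyMeasurable 1
    (Eventually.of_forall fun ω => by rcases rad_cases t ω with h | h <;> simp [h])

/-- The Rademacher functions in `L²`. -/
noncomputable def radL (t : List ℕ) : Lp ℝ 2 mu := (memLp_rad t).toLp _

theorem inner_radL (s t : List ℕ) :
    inner ℝ (radL s) (radL t) = ∫ ω, rad s ω * rad t ω ∂mu := by
  rw [L2.inner_def]
  refine integral_congr_ae ?_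
  filter_upwards [(memLp_rad s).coeFn_toLp, (memLp_rad t).coeFn_toLp] with ω h1 h2
  simp only [radL, h1, h2]
  simp [mul_comm]

theorem orthonormal_radL : Orthonormal ℝ radL := by
  classical
  rw [orthonormal_iff_ite]
  intro s t
  rw [inner_radL]
  split_ifs with h
  · subst h
    have : ∀ ω, rad s ω * rad s ω = 1 := fun ω => by
      rcases rad_cases s ω with h | h <;> simp [h]
    simp [this]
  · refine integral_eq_zero_of_add_left_eq_neg (g := Pi.single s 1) fun ω => ?_
    have h1 : rad t (Pi.single s 1 + ω) = rad t ω := by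
      simp [rad, Pi.single_eq_of_ne (Ne.symm h)]
    have h2 : rad s (Pi.single s 1 + ω) = -rad s ω := by
      simp only [rad, Pi.add_apply, Pi.single_eq_same]
      generalize ω s = a
      have : ∀ a : ZMod 2, (1 + a = 0 ↔ ¬ a = 0) := by decide
      by_cases ha : a = 0 <;> simp [this, ha]
    rw [h1, h2, neg_mul]

/-- The Rademacher sum with square-summable coefficients. -/
noncomputable def W : lp (fun _ : List ℕ => ℝ) 2 →ₗᵢ[ℝ] Lp ℝ 2 mu :=
  orthonormal_radL.orthogonalFamily.linearIsometry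

theorem W_finite (y : lp (fun _ : List ℕ => ℝ) 2) (S : Finset (List ℕ))
    (hS : ∀ t ∉ S, y t = 0) : ∀ᵐ ω ∂mu, W y ω = ∑ t ∈ S, y t * rad t ω := by
  have h1 : W y = ∑ t ∈ S, y t • radL t := by
    refine (orthonormal_radL.orthogonalFamily.hasSum_linearIsometry y).unique ?_
    have := hasSum_sum_of_ne_finset_zero (L := SummationFilter.unconditional _)
      (f := fun t => y t • radL t) (s := S) fun t ht => by simp [hS t ht]
    simpa using this
  have h2 : ∀ᵐ ω ∂mu, ∀ t, (y t • radL t : Lp ℝ 2 mu) ω = y t * rad t ω := by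
    rw [ae_all_iff]
    intro t
    filter_upwards [Lp.coeFn_smul (y t) (radL t), (memLp_rad t).coeFn_toLp] with ω h3 h4
    rw [h3, Pi.smul_apply, radL, h4, smul_eq_mul]
  rw [h1]
  filter_upwards [Lp.coeFn_finsetSum S fun t => y t • radL t, h2] with ω h3 h4
  rw [h3, Finset.sum_apply]
  exact sum_congr rfl fun t _ => h4 t

/-- `exp (i a)`. -/
noncomputable def ex (a : ℝ) : ℂ := Complex.exp (Complex.I * a)

theorem norm_ex (a : ℝ) : ‖ex a‖ = 1 := by
  rw [ex, mul_comm, Complex.norm_exp_ofReal_mul_I]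

theorem ex_add (a b : ℝ) : ex (a + b) = ex a * ex b := by
  simp [ex, mul_add, Complex.exp_add]

theorem ex_zero : ex 0 = 1 := by simp [ex]

theorem norm_ex_sub (a b : ℝ) : ‖ex a - ex b‖ ≤ ‖a - b‖ := by
  have h : ex a - ex b = ex b * (ex (a - b) - 1) := by
    rw [mul_sub, ← ex_add]; simp
  rw [h, norm_mul, norm_ex, one_mul]
  exact Real.norm_exp_I_mul_ofReal_sub_one_le

theorem continuous_ex : Continuous ex := by
  unfold ex
  fun_prop

theorem ex_pi_mul (k : ℤ) (r : ℝ) (hr : r = 1 ∨ r = -1) : ex (Real.pi * k * r) = (-1) ^ k := by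
  have h : ∀ k : ℤ, ex (Real.pi * k) = (-1) ^ k := by
    intro k
    rw [ex, ← Complex.exp_pi_mul_I, ← Complex.exp_int_mul]
    congr 1
    push_cast
    ring
  rcases hr with rfl | rfl
  · rw [mul_one, h]
  · have := h (-k)
    push_cast at this
    rw [mul_neg, mul_one, ← mul_neg, this]
    rcases Int.even_or_odd k with hk | hk
    · rw [hk.neg.neg_one_zpow, hk.neg_one_zpow]
    · rw [hk.neg.neg_one_zpow, hk.neg_one_zpow]

theorem ex_W (y : lp (fun _ : List ℕ => ℝ) 2) (S : Finset (List ℕ)) (k : List ℕ → ℤ)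
    (hS : ∀ t ∉ S, y t = 0) (hk : ∀ t ∈ S, y t = Real.pi * k t) :
    ∀ᵐ ω ∂mu, ex (W y ω) = (-1) ^ (∑ t ∈ S, k t) := by
  filter_upwards [W_finite y S hS] with ω hω
  rw [hω]
  clear hω hS
  induction S using Finset.induction_on with
  | empty => simp [ex_zero]
  | insert a S ha ih =>
    rw [sum_insert ha, sum_insert ha, ex_add, ih fun t ht => hk t (mem_insert_of_mem ht),
      hk a (mem_insert_self _ _), ex_pi_mul _ _ (rad_cases a ω), zpow_add₀ (by norm_num)]

/-- The complex `L²` space of the Cantor group. -/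
abbrev K : Type := Lp ℂ 2 mu

theorem memLp_mulEx (f : Lp ℝ 2 mu) (g : K) : MemLp (fun ω => ex (f ω) * g ω) 2 mu :=
  (Lp.memLp g).of_le
    ((continuous_ex.comp_aestronglyMeasurable (Lp.aestronglyMeasurable f)).mul
      (Lp.aestronglyMeasurable g))
    (Eventually.of_forall fun ω => by rw [norm_mul, norm_ex, one_mul])

/-- Multiplication by `exp (i f)`. -/
noncomputable def mulEx (f : Lp ℝ 2 mu) (g : K) : K := (memLp_mulEx f g).toLp _

theorem mulEx_coe (f : Lp ℝ 2 mu) (g : K) : ∀ᵐ ω ∂mu, mulEx f g ω = ex (f ω) * g ω :=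
  (memLp_mulEx f g).coeFn_toLp

theorem mulEx_add_left (f f' : Lp ℝ 2 mu) (g : K) : mulEx (f + f') g = mulEx f (mulEx f' g) := by
  ext1
  filter_upwards [mulEx_coe (f + f') g, mulEx_coe f (mulEx f' g), mulEx_coe f' g,
    Lp.coeFn_add f f'] with ω h1 h2 h3 h4
  rw [h1, h2, h3, h4, Pi.add_apply, ex_add, mul_assoc]

theorem mulEx_zero (g : K) : mulEx 0 g = g := by
  ext1
  filter_upwards [mulEx_coe 0 g, Lp.coeFn_zero ℝ 2 mu] with ω h1 h2
  rw [h1, h2, Pi.zero_apply, ex_zero, one_mul]

theorem norm_mulEx (f : Lp ℝ 2 mu) (g : K) : ‖mulEx f g‖ = ‖g‖ := by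
  apply le_antisymm <;> apply Lp.norm_le_norm_of_ae_le <;>
    filter_upwards [mulEx_coe f g] with ω h <;> rw [h, norm_mul, norm_ex, one_mul]

/-- Multiplication by `exp (i f)` as a unitary. -/
noncomputable def mulU (f : Lp ℝ 2 mu) : K ≃ₗᵢ[ℂ] K where
  toFun := mulEx f
  invFun := mulEx (-f)
  map_add' g g' := by
    ext1
    filter_upwards [mulEx_coe f (g + g'), mulEx_coe f g, mulEx_coe f g', Lp.coeFn_add g g',
      Lp.coeFn_add (mulEx f g) (mulEx f g')] with ω h1 h2 h3 h4 h5
    rw [h1, h5, h4, Pi.add_apply, Pi.add_apply, h2, h3, mul_add]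
  map_smul' c g := by
    ext1
    filter_upwards [mulEx_coe f (c • g), mulEx_coe f g, Lp.coeFn_smul c g,
      Lp.coeFn_smul c (mulEx f g)] with ω h1 h2 h3 h4
    simp only [RingHom.id_apply]
    rw [h1, h4, h3, Pi.smul_apply, Pi.smul_apply, h2, smul_eq_mul, smul_eq_mul]
    ring
  left_inv g := by rw [← mulEx_add_left, neg_add_cancel, mulEx_zero]
  right_inv g := by rw [← mulEx_add_left, add_neg_cancel, mulEx_zero]
  norm_map' := norm_mulEx f

theorem mulU_apply (f : Lp ℝ 2 mu) (g : K) : mulU f g = mulEx f g := rfl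

theorem isClosed_continuous {X H : Type*} [TopologicalSpace X] [NormedAddCommGroup H]
    [NormedSpace ℂ H] (T : X → H ≃ₗᵢ[ℂ] H) : IsClosed {v : H | Continuous fun x => T x v} := by
  refine isClosed_of_closure_subset fun v hv => ?_
  refine continuous_of_uniform_approx_of_continuous fun u hu => ?_
  obtain ⟨ε, hε, hu⟩ := Metric.mem_uniformity_dist.mp hu
  obtain ⟨w, hw, hd⟩ := Metric.mem_closure_iff.mp hv ε hε
  exact ⟨_, hw, fun x => hu (by rwa [LinearIsometryEquiv.dist_map])⟩

theorem continuous_mulU (g : K) : Continuous fun f => mulU f g := by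
  refine Lp.induction (p := 2) (by simp) (fun g : K => Continuous fun f => mulU f g)
    (fun c s hs hμs => ?_) (fun _ _ hf hg _ h1 h2 => ?_) (isClosed_continuous _) g
  · set g : K := (Lp.simpleFunc.indicatorConst 2 hs hμs.ne c : K) with hg
    have h1 : ∀ᵐ ω ∂mu, ‖g ω‖ ≤ ‖c‖ := by
      rw [hg, Lp.simpleFunc.coe_indicatorConst]
      filter_upwards [indicatorConstLp_coeFn (p := 2) (hs := hs) (hμs := hμs.ne) (c := c)] with ω h
      rw [h]
      exact norm_indicator_le_norm_self _ _
    refine (LipschitzWith.of_dist_le_mul (K := ‖c‖₊) fun f f' => ?_).continuous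
    rw [dist_eq_norm, dist_eq_norm]
    apply Lp.norm_le_mul_norm_of_ae_le_mul
    filter_upwards [h1, mulEx_coe f g, mulEx_coe f' g, Lp.coeFn_sub f f',
      Lp.coeFn_sub (mulEx f g) (mulEx f' g)] with ω h2 h3 h4 h5 h6
    rw [mulU_apply, mulU_apply, h6, Pi.sub_apply, h3, h4, h5, Pi.sub_apply, ← sub_mul, norm_mul,
      mul_comm]
    exact mul_le_mul h2 (norm_ex_sub _ _) (norm_nonneg _) (norm_nonneg _)
  · simp only [map_add]
    exact h1.add h2

/-- The constant function one. -/
noncomputable def oneK : K := (memLp_const (1 : ℂ)).toLp _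

theorem mulU_one_iff (f : Lp ℝ 2 mu) (c : ℂ) :
    mulU f oneK = c • oneK ↔ ∀ᵐ ω ∂mu, ex (f ω) = c := by
  have h1 : ∀ᵐ ω ∂mu, oneK ω = 1 := (memLp_const (1 : ℂ)).coeFn_toLp
  rw [mulU_apply, Lp.ext_iff]
  refine eventually_congr ?_
  filter_upwards [h1, mulEx_coe f oneK, Lp.coeFn_smul c oneK] with ω h2 h3 h4
  rw [h3, h4, Pi.smul_apply, h2, mul_one, smul_eq_mul, mul_one]

end Pool.Agent.P.MP_0bef39_lc.U
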