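import Mathlib

/-!
Sign averages in a unitary representation of an abelian group.
-/

namespace Pool.Agent.P.MP_0bef39_lc.U

open Finset

variable {G H : Type*} [AddCommGroup G] [NormedAddCommGroup H] [InnerProductSpace ℂ H]

/-- A family of unitaries that is additive in the group element. -/
structure Rep (G H : Type*) [AddCommGroup G] [NormedAddCommGroup H] [InnerProductSpace ℂ H] where
  U : G → H ≃ₗᵢ[ℂ] H
  add : ∀ x y v, U (x + y) v = U x (U y v)

namespace Rep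

variable (π : Rep G H)

theorem zero (v : H) : π.U 0 v = v := by
  have h := π.add 0 0 v
  rw [add_zero] at h
  exact ((π.U 0).injective h).symm

theorem comm (x y : G) (v : H) : π.U x (π.U y v) = π.U y (π.U x v) := by
  rw [← π.add, ← π.add, add_comm]

theorem disp_add (x y : G) (v : H) :
    ‖π.U (x + y) v - v‖ ≤ ‖π.U x v - v‖ + ‖π.U y v - v‖ := by
  have h : π.U (x + y) v - v = π.U x (π.U y v - v) + (π.U x v - v) := by
    rw [π.add, map_sub]; abel
  rw [h]
  refine (norm_add_le _ _).trans ?_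
  rw [LinearIsometryEquiv.norm_map]
  linarith

theorem disp_nsmul (m : ℕ) (x : G) (v : H) : ‖π.U (m • x) v - v‖ ≤ m * ‖π.U x v - v‖ := by
  induction m with
  | zero => simp [π.zero]
  | succ m ih =>
    rw [succ_nsmul]
    refine (π.disp_add _ _ v).trans ?_
    push_cast
    linarith

theorem disp_sub (x y : G) (v : H) : ‖π.U x v - π.U y v‖ = ‖π.U (x - y) v - v‖ := by
  have h : π.U x v - π.U y v = π.U y (π.U (x - y) v - v) := by
    rw [map_sub, ← π.add]; simp
  rw [h, LinearIsometryEquiv.norm_map]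

/-- The real part of a unitary. -/
noncomputable def C (u : G) (v : H) : H := (1 / 2 : ℂ) • (π.U u v + π.U (-u) v)

/-- Twice the imaginary part of a unitary, up to a unit scalar. -/
noncomputable def S (u : G) (v : H) : H := π.U u v - π.U (-u) v

theorem pyth (u : G) (v : H) : ‖π.C u v‖ ^ 2 + ‖π.S u v‖ ^ 2 / 4 = ‖v‖ ^ 2 := by
  have h := parallelogram_law_with_norm ℂ (π.U u v) (π.U (-u) v)
  simp only [LinearIsometryEquiv.norm_map] at h
  have h2 : ‖π.C u v‖ = ‖π.U u v + π.U (-u) v‖ / 2 := by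
    rw [C, norm_smul]
    simp
    ring
  rw [h2, S]
  nlinarith

theorem norm_C_le (u : G) (v : H) : ‖π.C u v‖ ≤ ‖v‖ := by
  have h := π.pyth u v
  have h1 : ‖π.C u v‖ ^ 2 ≤ ‖v‖ ^ 2 := by nlinarith [sq_nonneg ‖π.S u v‖]
  exact (pow_le_pow_iff_left₀ (norm_nonneg _) (norm_nonneg _) two_ne_zero).mp h1

theorem S_C (w u : G) (v : H) : π.S w (π.C u v) = π.C u (π.S w v) := by
  simp only [S, C, map_smul, map_add, map_sub, π.comm w, π.comm (-w), ← smul_sub]
  congr 1
  abel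

/-- The product of the real parts. -/
noncomputable def Q (u : ℕ → G) (ξ : H) : ℕ → H
  | 0 => ξ
  | n + 1 => π.C (u n) (Q u ξ n)

theorem sum_S_le (u : ℕ → G) (ξ : H) (n : ℕ) :
    ∑ k ∈ range n, ‖π.S (u k) (π.Q u ξ n)‖ ^ 2 / 4 ≤ ‖ξ‖ ^ 2 - ‖π.Q u ξ n‖ ^ 2 := by
  induction n with
  | zero => simp [Q]
  | succ n ih =>
    have h1 : ∀ k, ‖π.S (u k) (π.Q u ξ (n + 1))‖ ^ 2 / 4 ≤ ‖π.S (u k) (π.Q u ξ n)‖ ^ 2 / 4 := by
      intro k
      rw [Q, S_C]
      have := π.norm_C_le (u n) (π.S (u k) (π.Q u ξ n))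
      gcongr
    refine (sum_le_sum fun k _ => h1 k).trans ?_
    rw [sum_range_succ]
    have h2 := π.pyth (u n) (π.Q u ξ n)
    rw [Q]
    linarith

theorem Q_near (u : ℕ → G) (ξ : H) (ε : ℝ) (n : ℕ) : ∀ z : G,
    (∀ σ : ℕ → ℤ, (∀ i, σ i = 1 ∨ σ i = -1) →
      ‖π.U (z + ∑ i ∈ range n, σ i • u i) ξ - ξ‖ ≤ ε) → ‖π.U z (π.Q u ξ n) - ξ‖ ≤ ε := by
  induction n with
  | zero =>
    intro z h
    simpa [Q] using h (fun _ => 1) (fun _ => Or.inl rfl)
  | succ n ih =>
    intro z h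
    have key : ∀ s : ℤ, (s = 1 ∨ s = -1) → ‖π.U (z + s • u n) (π.Q u ξ n) - ξ‖ ≤ ε := by
      intro s hs
      refine ih _ fun σ hσ => ?_
      have h1 := h (Function.update σ n s) (fun i => by
        by_cases hi : i = n
        · subst hi; simpa using hs
        · simpa [Function.update_of_ne hi] using hσ i)
      have h2 : ∑ i ∈ range n, Function.update σ n s i • u i = ∑ i ∈ range n, σ i • u i :=
        sum_congr rfl fun i hi => by rw [Function.update_of_ne (mem_range.mp hi).ne]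
      rw [sum_range_succ, h2, Function.update_self] at h1
      convert h1 using 4
      abel
    have h1 := key 1 (Or.inl rfl)
    have h2 := key (-1) (Or.inr rfl)
    have h3 : π.U z (π.Q u ξ (n + 1)) - ξ = (1 / 2 : ℂ) •
        ((π.U (z + (1 : ℤ) • u n) (π.Q u ξ n) - ξ) +
          (π.U (z + (-1 : ℤ) • u n) (π.Q u ξ n) - ξ)) := by
      simp only [Q, C, map_smul, map_add, one_smul, neg_smul, π.add]
      module
    rw [h3, norm_smul]
    have h4 := norm_add_le (π.U (z + (1 : ℤ) • u n) (π.Q u ξ n) - ξ)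
      (π.U (z + (-1 : ℤ) • u n) (π.Q u ξ n) - ξ)
    have h5 : ‖(1 / 2 : ℂ)‖ = 1 / 2 := by simp
    rw [h5]
    linarith

/-- If all signed sums of the `u k` move `ξ` little and the multiples `2 m u k` move it much,
there are few of them. -/
theorem few (u : ℕ → G) (ξ : H) (δ : ℝ) (hδ : 0 ≤ δ) (N m : ℕ)
    (h1 : ∀ k, δ ≤ ‖π.U (m • (u k + u k)) ξ - ξ‖)
    (h2 : ∀ σ : ℕ → ℤ, (∀ i, σ i = 1 ∨ σ i = -1) →
      ‖π.U (∑ i ∈ range N, σ i • u i) ξ - ξ‖ ≤ δ / 4) :
    N * δ ^ 2 ≤ 16 * m ^ 2 * ‖ξ‖ ^ 2 := by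
  set v := π.Q u ξ N with hv
  have h3 : ‖v - ξ‖ ≤ δ / 4 := by
    have := π.Q_near u ξ (δ / 4) N 0 (by simpa using h2)
    rwa [π.zero] at this
  have h4 : ∀ k, δ / 2 ≤ m * ‖π.S (u k) v‖ := by
    intro k
    have h5 : ‖π.S (u k) v‖ = ‖π.U (u k + u k) v - v‖ := by
      rw [S, π.disp_sub, sub_neg_eq_add]
    rw [h5]
    refine le_trans ?_ (π.disp_nsmul m _ v)
    have h6 : π.U (m • (u k + u k)) ξ - ξ = (π.U (m • (u k + u k)) v - v) -
        π.U (m • (u k + u k)) (v - ξ) + (v - ξ) := by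
      rw [map_sub]; abel
    have h7 := h1 k
    rw [h6] at h7
    have h8 := norm_add_le ((π.U (m • (u k + u k)) v - v) - π.U (m • (u k + u k)) (v - ξ)) (v - ξ)
    have h9 := norm_sub_le (π.U (m • (u k + u k)) v - v) (π.U (m • (u k + u k)) (v - ξ))
    rw [LinearIsometryEquiv.norm_map] at h9
    linarith
  have h5 : ∀ k ∈ range N, δ ^ 2 ≤ 16 * m ^ 2 * (‖π.S (u k) v‖ ^ 2 / 4) := by
    intro k _
    have := pow_le_pow_left₀ (by positivity) (h4 k) 2
    nlinarith
  have h6 := sum_le_sum h5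
  rw [sum_const, card_range, nsmul_eq_mul, ← mul_sum] at h6
  refine h6.trans ?_
  have h7 := π.sum_S_le u ξ N
  gcongr
  nlinarith [sq_nonneg ‖π.Q u ξ N‖]

end Rep

end Pool.Agent.P.MP_0bef39_lc.U
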