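import Pool.Agent.P.MP_0bef39_lc.U.Neg

/-!
The pair of vectors of a tree lies in the orbit relation exactly when the tree has a branch.
-/

namespace Pool.Agent.P.MP_0bef39_lc.U

open Finset Filter Topology MeasureTheory
open scoped ENNReal

/-- The first `n` terms of a sequence, last term first. -/
def pre (b : ℕ → ℕ) : ℕ → List ℕ
  | 0 => []
  | n + 1 => b n :: pre b n

theorem length_pre (b : ℕ → ℕ) (n : ℕ) : (pre b n).length = n := by
  induction n with
  | zero => rfl
  | succ n ih => simp [pre, ih]

theorem eq_of_pre_eq {b c : ℕ → ℕ} {n : ℕ} (h : pre b n = pre c n) : ∀ i < n, b i = c i := by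
  induction n with
  | zero => simp
  | succ n ih =>
    simp only [pre, List.cons.injEq] at h
    intro i hi
    rcases Nat.lt_succ_iff_lt_or_eq.mp hi with hi | rfl
    · exact ih h.2 i hi
    · exact h.1

theorem const_of_ae {a c : ℂ} {F : Om → ℂ} (h1 : ∀ᵐ ω ∂mu, F ω = a) (h2 : ∀ᵐ ω ∂mu, F ω = c) :
    a = c := by
  obtain ⟨ω, h3, h4⟩ := (h1.and h2).exists
  rw [← h3, h4]

theorem even_iff_zpow (k : ℤ) : (-1 : ℂ) ^ k = 1 ↔ Even k := by
  rcases Int.even_or_odd k with hk | hk
  · simp [hk, hk.neg_one_zpow]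
  · rw [hk.neg_one_zpow]
    simp only [Int.not_even_iff_odd.mpr hk, iff_false]
    norm_num

variable {p : ℝ≥0∞} [Fact (1 ≤ p)]

omit [Fact (1 ≤ p)] in
theorem exists_int (hp2 : p ≤ 2) (x : L p) (s : List ℕ)
    (h : ∀ᵐ ω ∂mu, ex (W (diag hp2 (s, 0) x) ω) = 1) :
    ∃ m : ℤ, 2 ^ s.length * x (en s) = m := by
  have h1 := W_finite (diag hp2 (s, 0) x) {s} fun t ht => by
    simp [diag_apply, co, Finset.notMem_singleton.mp ht]
  obtain ⟨ω, h2, h3⟩ := (h.and h1).exists
  rw [h3, sum_singleton, diag_apply, ex, Complex.exp_eq_one_iff] at h2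
  obtain ⟨n, hn⟩ := h2
  have h4 : Real.pi * (2 * 2 ^ s.length) * x (en s) * rad s ω = n * (2 * Real.pi) := by
    have h5 := congrArg Complex.im hn
    simpa [co, -Complex.ofReal_mul, -Complex.ofReal_pow] using h5
  rcases rad_cases s ω with h5 | h5 <;> rw [h5] at h4
  · exact ⟨n, mul_left_cancel₀ (a := 2 * Real.pi) (by positivity) (by linarith)⟩
  · exact ⟨-n, mul_left_cancel₀ (a := 2 * Real.pi) (by positivity) (by push_cast; linarith)⟩

theorem finite_support (y : lp (fun _ : List ℕ => ℝ) 2) (k : List ℕ → ℤ)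
    (hk : ∀ t, y t = Real.pi * k t) : {t | k t ≠ 0}.Finite := by
  have h1 := ((lp.memℓp y).summable (by simp)).tendsto_cofinite_zero
  have h2 := h1.eventually (gt_mem_nhds one_pos)
  rw [eventually_cofinite] at h2
  refine h2.subset fun t ht => ?_
  simp only [Set.mem_ofPred_eq, not_lt]
  refine Real.one_le_rpow ?_ (by simp)
  have h3 : (1 : ℝ) ≤ |(k t : ℝ)| := by exact_mod_cast Int.one_le_abs ht
  rw [hk, norm_mul, Real.norm_of_nonneg Real.pi_pos.le, Real.norm_eq_abs]
  nlinarith [Real.pi_gt_three]

omit [Fact (1 ≤ p)] in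
theorem branch_of_sol (hp2 : p ≤ 2) (T : List ℕ → Bool) (x : L p)
    (h : ∀ j, ph j (T j.1) ≠ 0 → ∀ᵐ ω ∂mu, ex (W (diag hp2 j x) ω) = ph j (T j.1)) :
    ∃ b : ℕ → ℕ, ∀ n, T (pre b (n + 1)) = true := by
  classical
  have h1 : ∀ s, ∃ m : ℤ, 2 ^ s.length * x (en s) = m := fun s =>
    exists_int hp2 x s (by simpa [ph] using h (s, 0))
  choose m hm using h1
  have hd : ∀ j t, diag hp2 j x t = Real.pi * ((co j t * m t : ℤ) : ℝ) := by
    intro j t
    rw [diag_apply]
    push_cast
    rw [← hm]
    ring
  have h2 : ∀ s, ∀ᵐ ω ∂mu, ex (W (diag hp2 (s, 1) x) ω) = (-1) ^ m s := by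
    intro s
    have := ex_W (diag hp2 (s, 1) x) {s} (fun t => co (s, 1) t * m t)
      (fun t ht => by simp [diag_apply, co, Finset.notMem_singleton.mp ht]) fun t _ => hd _ t
    simpa [co] using this
  have h3 : ¬ Even (m []) := by
    have := const_of_ae (h2 []) (h ([], 1) (by simp [ph]))
    rw [← even_iff_zpow, this]
    simp only [ph]
    norm_num
  have h4 : ∀ s, s ≠ [] → ¬ Even (m s) → T s = true := by
    intro s hs hodd
    by_contra hT
    have := const_of_ae (h2 s) (h (s, 1) (by simp [ph, hs, hT]))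
    exact hodd ((even_iff_zpow _).mp (by simpa [ph, hs, hT] using this))
  have h5 : ∀ s, ¬ Even (m s) → ∃ k, ¬ Even (m (k :: s)) := by
    intro s hodd
    by_contra hcon
    push Not at hcon
    have hfin := finite_support _ _ (hd (s, 2))
    have h6 := ex_W (diag hp2 (s, 2) x) (insert s (hfin.toFinset.erase s))
      (fun t => co (s, 2) t * m t) (fun t ht => by
        have : co (s, 2) t * m t = 0 := by
          by_contra hne
          refine ht (mem_insert.mpr ?_)
          by_cases hts : t = s
          · exact Or.inl hts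
          · exact Or.inr (mem_erase.mpr ⟨hts, hfin.mem_toFinset.mpr hne⟩)
        rw [hd, this]
        simp) fun t _ => hd _ t
    have h7 := const_of_ae h6 (h (s, 2) (by simp [ph]))
    have h8 : Even (∑ t ∈ insert s (hfin.toFinset.erase s), co (s, 2) t * m t) :=
      (even_iff_zpow _).mp (by simpa [ph] using h7)
    have h9 : Even (∑ t ∈ hfin.toFinset.erase s, co (s, 2) t * m t) := by
      refine Finset.even_sum _ fun t ht => ?_
      have hts := (mem_erase.mp ht).1
      by_cases hc : t ≠ [] ∧ t.tail = s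
      · obtain ⟨k, t', rfl⟩ := List.exists_cons_of_ne_nil hc.1
        obtain rfl : t' = s := hc.2
        exact (hcon k).mul_left _
      · have : co (s, 2) t = 0 := by simp only [co, hts, hc]; simp
        simp [this]
    rw [sum_insert (notMem_erase _ _), Int.even_add] at h8
    exact hodd (by simpa [co] using h8.mpr h9)
  choose! nx hnx using h5
  let l : ℕ → List ℕ := fun n => (fun s => nx s :: s)^[n] []
  have hl : ∀ n, l (n + 1) = nx (l n) :: l n := fun n => Function.iterate_succ_apply' _ _ _
  have hodd : ∀ n, ¬ Even (m (l n)) := by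
    intro n
    induction n with
    | zero => exact h3
    | succ n ih => rw [hl]; exact hnx _ ih
  have hpre : ∀ n, pre (fun n => nx (l n)) n = l n := by
    intro n
    induction n with
    | zero => rfl
    | succ n ih => rw [pre, ih, hl]
  refine ⟨fun n => nx (l n), fun n => ?_⟩
  rw [hpre]
  exact h4 _ (by simp [hl]) (hodd _)

theorem sol_of_branch (hp2 : p ≤ 2) (T : List ℕ → Bool) (b : ℕ → ℕ)
    (hb : ∀ n, T (pre b (n + 1)) = true) : ∃ x : L p,
    ∀ j, ph j (T j.1) ≠ 0 → ∀ᵐ ω ∂mu, ex (W (diag hp2 j x) ω) = ph j (T j.1) := by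
  classical
  have hp : p ≠ ∞ := ne_top_of_le_ne_top (by simp) hp2
  have hq : 0 < p.toReal := ENNReal.toReal_pos p_ne_zero hp
  let m : List ℕ → ℤ := fun s => if s = pre b s.length then 1 else 0
  let f : ℕ → ℝ := fun i => m (en.symm i) * (1 / 2) ^ (en.symm i).length
  have hf : Memℓp f p := by
    refine memℓp_gen ?_
    have hinj : Function.Injective fun n => en (pre b n) := fun n n' h => by
      have := congrArg List.length (en.injective h)
      simpa [length_pre] using this
    rw [← hinj.summable_iff (fun i hi => ?_)]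
    · have h1 : ((1 / 2 : ℝ) ^ p.toReal) < 1 := Real.rpow_lt_one (by norm_num) (by norm_num) hq
      refine (summable_geometric_of_lt_one (by positivity) h1).congr fun n => ?_
      simp only [Function.comp, f, m, Equiv.symm_apply_apply, length_pre, if_true, Int.cast_one,
        one_mul]
      rw [Real.norm_of_nonneg (by positivity), ← Real.rpow_natCast, ← Real.rpow_natCast,
        ← Real.rpow_mul (by norm_num), ← Real.rpow_mul (by norm_num), mul_comm]
    · have : en.symm i ≠ pre b (en.symm i).length := fun h =>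
        hi ⟨(en.symm i).length, by simp only []; rw [← h]; simp⟩
      simp [f, m, this, Real.zero_rpow hq.ne']
  let x : L p := ⟨f, hf⟩
  have hd : ∀ j t, diag hp2 j x t = Real.pi * ((co j t * m t : ℤ) : ℝ) := by
    intro j t
    have : x (en t) = m t * (1 / 2) ^ t.length := by simp [x, f]
    rw [diag_apply, this, one_div, inv_pow]
    push_cast
    field_simp
  have key : ∀ (j : J) (S : Finset (List ℕ)), (∀ t ∉ S, co j t * m t = 0) →
      ∀ᵐ ω ∂mu, ex (W (diag hp2 j x) ω) = (-1) ^ (∑ t ∈ S, co j t * m t) := fun j S hS =>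
    ex_W _ S _ (fun t ht => by rw [hd, hS t ht]; simp) fun t _ => hd j t
  refine ⟨x, ?_⟩
  rintro ⟨s, i⟩ hj
  fin_cases i
  · have := key (s, 0) {s} fun t ht => by simp [co, Finset.notMem_singleton.mp ht]
    simpa [co, ph, zpow_mul] using this
  · have h1 := key (s, 1) {s} fun t ht => by simp [co, Finset.notMem_singleton.mp ht]
    by_cases hs : s = []
    · subst hs
      simpa [co, ph, m, pre] using h1
    · have hT : T s = false := by simpa [ph, hs] using hj
      have h2 : m s = 0 := by
        refine if_neg fun h => ?_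
        obtain ⟨k, t, rfl⟩ := List.exists_cons_of_ne_nil hs
        rw [h, List.length_cons, hb] at hT
        simp at hT
      simpa [co, ph, hs, hT, h2] using h1
  · have hch : ∀ k, m (k :: s) ≠ 0 → s = pre b s.length ∧ k = b s.length := by
      intro k hk
      have h : k :: s = pre b (k :: s).length := by
        by_contra h
        exact hk (if_neg h)
      simp only [List.length_cons, pre, List.cons.injEq] at h
      exact ⟨h.2, h.1⟩
    have hz : ∀ t, co (s, 2) t * m t ≠ 0 → s = pre b s.length ∧ (t = s ∨ t = b s.length :: s) := by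
      intro t ht
      have h1 : t = s ∨ (t ≠ [] ∧ t.tail = s) := by
        by_contra h
        exact left_ne_zero_of_mul ht (by simp only [co, h]; simp)
      have h2 := right_ne_zero_of_mul ht
      rcases h1 with rfl | ⟨h1, h3⟩
      · refine ⟨?_, Or.inl rfl⟩
        by_contra h
        exact h2 (if_neg h)
      · obtain ⟨k, t', rfl⟩ := List.exists_cons_of_ne_nil h1
        obtain rfl : t' = s := h3
        obtain ⟨h4, rfl⟩ := hch k h2
        exact ⟨h4, Or.inr rfl⟩
    by_cases hs : s = pre b s.length
    · have h1 := key (s, 2) {s, b s.length :: s} fun t ht => by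
        by_contra h
        exact ht (by simpa using (hz t h).2)
      have h2 : m s = 1 := if_pos hs
      have h3 : m (b s.length :: s) = 1 := if_pos (by rw [List.length_cons, pre, ← hs])
      rw [sum_pair (List.cons_ne_self _ _).symm, h2, h3] at h1
      simpa [co, ph] using h1
    · have h1 := key (s, 2) ∅ fun t _ => by
        by_contra h
        exact hs (hz t h).1
      simpa [ph] using h1

theorem pairT_mem_iff (hp2 : p ≤ 2) (T : List ℕ → Bool) :
    (∃ x : L p, (rep hp2).U x (pairT T).1 = (pairT T).2) ↔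
      ∃ b : ℕ → ℕ, ∀ n, T (pre b (n + 1)) = true := by
  simp only [rep_pairT]
  exact ⟨fun ⟨x, hx⟩ => branch_of_sol hp2 T x hx, fun ⟨b, hb⟩ => sol_of_branch hp2 T b hb⟩

end Pool.Agent.P.MP_0bef39_lc.U
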